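import Pool.Agent.H743.JL.StmC

/-!
# JL-SH: the shape of the forms (task by helper743, proof by helper385)
-/

set_option autoImplicit false
set_option linter.all false

open scoped Classical

namespace Pool.Agent.H385.JLSH

open Finset Module
open Pool.Agent.N916.MO
open Pool.Agent.H743.JL

section
variable {U J : Type} [Fintype U] [DecidableEq U] [Fintype J] [LinearOrder J]

theorem Bp_apply (k0 : J) (r ν α : U ⊕ J → ZMod 2) (L : U ⊕ J → U ⊕ J → ZMod 2)
    (z w : EE (E2 (Option U)) (Ix k0)) :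
    Bp k0 r ν α L z w =
      SL (fun i => (1 + r i) * ν i) α (fun i j => (1 + r i) * L i j) (co k0 z) (co k0 w) +
      dF r ν α (co k0 z) * dF r ν α (co k0 w) + rF r (co k0 z) * dF r ν α (co k0 w) +
      dF r ν α (co k0 z) * rF r (co k0 w) := rfl

theorem xs (k0 : J) (k : Ix k0) (l : J) : xt k0 (Pi.single k 1) l =
    (Pi.single (Sum.inr (k : J)) 1 : U ⊕ J → ZMod 2) (Sum.inr l) := by
  by_cases h : l = (k : J)
  · rw [h, xt_sub, Pi.single_eq_same, Pi.single_eq_same]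
  · rw [Pi.single_eq_of_ne (by simpa using h)]
    unfold xt
    split_ifs with h1
    · exact Pi.single_eq_of_ne (fun h2 => h (congrArg Subtype.val h2)) 1
    · rfl

theorem x0 (k0 : J) (l : J) : (0 : ZMod 2) + xt k0 (0 : Ix k0 → ZMod 2) l = 0 := by
  rw [zero_add]
  unfold xt
  split_ifs <;> rfl

theorem co_fx (k0 : J) (k : Ix k0) :
    co (U := U) k0 (fx k) = (Pi.single (Sum.inr (k : J)) 1, 0) := by
  refine Prod.ext (funext fun v => ?_) (funext fun v => ?_)
  · rcases v with u | l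
    · show (0 : ZMod 2) = (Pi.single (Sum.inr (k : J)) 1 : U ⊕ J → ZMod 2) (Sum.inl u)
      rw [Pi.single_eq_of_ne (by simp)]
    · show (0 : ZMod 2) + xt k0 (Pi.single k 1) l =
        (Pi.single (Sum.inr (k : J)) 1 : U ⊕ J → ZMod 2) (Sum.inr l)
      rw [zero_add]
      exact xs k0 k l
  · rcases v with u | l
    · rfl
    · exact x0 k0 l

theorem co_fy (k0 : J) (k : Ix k0) :
    co (U := U) k0 (fy k) = (0, Pi.single (Sum.inr (k : J)) 1) := by
  refine Prod.ext (funext fun v => ?_) (funext fun v => ?_)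
  · rcases v with u | l
    · rfl
    · exact x0 k0 l
  · rcases v with u | l
    · show (0 : ZMod 2) = (Pi.single (Sum.inr (k : J)) 1 : U ⊕ J → ZMod 2) (Sum.inl u)
      rw [Pi.single_eq_of_ne (by simp)]
    · show (0 : ZMod 2) + xt k0 (Pi.single k 1) l =
        (Pi.single (Sum.inr (k : J)) 1 : U ⊕ J → ZMod 2) (Sum.inr l)
      rw [zero_add]
      exact xs k0 k l

theorem dF_x (r ν α : U ⊕ J → ZMod 2) (v : U ⊕ J) :
    dF r ν α (Pi.single v 1, 0) = (1 + r v) * ν v := by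
  show ∑ i, (1 + r i) * ν i * (Pi.single v 1 : U ⊕ J → ZMod 2) i +
    ∑ j, α j * (0 : U ⊕ J → ZMod 2) j = _
  simp [Pi.single_apply]

theorem dF_y (r ν α : U ⊕ J → ZMod 2) (v : U ⊕ J) :
    dF r ν α (0, Pi.single v 1) = α v := by
  show ∑ i, (1 + r i) * ν i * (0 : U ⊕ J → ZMod 2) i +
    ∑ j, α j * (Pi.single v 1 : U ⊕ J → ZMod 2) j = _
  simp [Pi.single_apply]

theorem rF_x (r : U ⊕ J → ZMod 2) (v : U ⊕ J) : rF r (Pi.single v 1, 0) = r v := by
  show ∑ i, r i * (Pi.single v 1 : U ⊕ J → ZMod 2) i = _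
  simp [Pi.single_apply]

theorem rF_y (r : U ⊕ J → ZMod 2) (v : U ⊕ J) : rF r (0, Pi.single v 1) = 0 := by
  show ∑ i, r i * (0 : U ⊕ J → ZMod 2) i = _
  simp

theorem sum_co1 (k0 : J) (f : U ⊕ J → ZMod 2) (z : EE (E2 (Option U)) (Ix k0)) :
    ∑ i, f i * (co k0 z).1 i = ∑ u, f (Sum.inl u) * z.1.1 (some u) +
      z.1.1 none * ∑ l, f (Sum.inr l) + ∑ l : Ix k0, f (Sum.inr l) * z.2.1 l := by
  rw [Fintype.sum_sum_type, ← sum_xt (fun k => f (Sum.inr k)) z.2.1, mul_sum, add_assoc,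
    ← sum_add_distrib]
  congr 1
  refine sum_congr rfl fun l _ => ?_
  show f (Sum.inr l) * (z.1.1 none + xt k0 z.2.1 l) = _
  ring

theorem sum_co2 (k0 : J) (f : U ⊕ J → ZMod 2) (z : EE (E2 (Option U)) (Ix k0)) :
    ∑ i, f i * (co k0 z).2 i = ∑ u, f (Sum.inl u) * z.1.2 (some u) +
      z.1.2 none * ∑ l, f (Sum.inr l) + ∑ l : Ix k0, f (Sum.inr l) * z.2.2 l := by
  rw [Fintype.sum_sum_type, ← sum_xt (fun k => f (Sum.inr k)) z.2.2, mul_sum, add_assoc,
    ← sum_add_distrib]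
  congr 1
  refine sum_congr rfl fun l _ => ?_
  show f (Sum.inr l) * (z.1.2 none + xt k0 z.2.2 l) = _
  ring

theorem Bp_fx (k0 : J) (r ν α : U ⊕ J → ZMod 2) (L : U ⊕ J → U ⊕ J → ZMod 2)
    (z : EE (E2 (Option U)) (Ix k0)) (k : Ix k0) (hr : r (Sum.inr (k : J)) = 0) :
    Bp k0 r ν α L z (fx k) = ν (Sum.inr (k : J)) * (z.1.1 none + z.2.1 k) +
      (∑ u, L (Sum.inr (k : J)) (Sum.inl u) * z.1.2 (some u) +
        z.1.2 none * ∑ l, L (Sum.inr (k : J)) (Sum.inr l) +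
        ∑ l : Ix k0, L (Sum.inr (k : J)) (Sum.inr (l : J)) * z.2.2 l) +
      (dF r ν α (co k0 z) + rF r (co k0 z)) * ν (Sum.inr (k : J)) := by
  rw [Bp_apply, co_fx, SL_x, dF_x, rF_x, hr, ← sum_co2]
  have h1 : (co k0 z).1 (Sum.inr (k : J)) = z.1.1 none + z.2.1 k := by
    show z.1.1 none + xt k0 z.2.1 k = _
    rw [xt_sub]
  rw [h1]
  simp only [add_zero, one_mul, mul_zero]
  ring

theorem Bp_fy (k0 : J) (r ν α : U ⊕ J → ZMod 2) (L : U ⊕ J → U ⊕ J → ZMod 2)
    (z : EE (E2 (Option U)) (Ix k0)) (k : Ix k0) (hr : ∀ l, r (Sum.inr l) = 0) :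
    Bp k0 r ν α L z (fy k) = (∑ u, (1 + r (Sum.inl u)) * L (Sum.inl u) (Sum.inr (k : J)) *
        z.1.1 (some u) + z.1.1 none * ∑ l, L (Sum.inr l) (Sum.inr (k : J)) +
        ∑ l : Ix k0, L (Sum.inr (l : J)) (Sum.inr (k : J)) * z.2.1 l) +
      α (Sum.inr (k : J)) * (z.1.2 none + z.2.2 k) +
      (dF r ν α (co k0 z) + rF r (co k0 z)) * α (Sum.inr (k : J)) := by
  rw [Bp_apply, co_fy, SL_y, dF_y, rF_y]
  have h0 := sum_co1 k0 (fun i => (1 + r i) * L i (Sum.inr (k : J))) z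
  have h1 : (co k0 z).2 (Sum.inr (k : J)) = z.1.2 none + z.2.2 k := by
    show z.1.2 none + xt k0 z.2.2 k = _
    rw [xt_sub]
  rw [h0, h1]
  simp only [hr, add_zero, one_mul, mul_zero]
  ring

theorem Bp_alt (k0 : J) (r ν α : U ⊕ J → ZMod 2) (L : U ⊕ J → U ⊕ J → ZMod 2)
    (z : EE (E2 (Option U)) (Ix k0)) : Bp k0 r ν α L z z = 0 := by
  rw [Bp_apply, SL_self]
  have h1 : ∑ i, (fun i => (1 + r i) * ν i) i * (co k0 z).1 i + ∑ j, α j * (co k0 z).2 j =
      dF r ν α (co k0 z) := rfl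
  rw [h1]
  generalize dF r ν α (co k0 z) = a
  generalize rF r (co k0 z) = b
  revert a b
  decide

end

theorem t_SH : S_SH := by
  intro n U _ _ J _ _ k0 r ν α L νJ αJ LJ τ h1 h2 h3 h4 h5
  refine ⟨fun i z => dF (r i) (ν i) (α i) (co k0 z) + rF (r i) (co k0 z),
    fun x => ∑ l : Ix k0, αJ l * x l,
    fun i k e c => νJ k * e.1 none + (∑ u, L i (Sum.inr (k : J)) (Sum.inl u) * e.2 (some u) +
      e.2 none * ∑ l, L i (Sum.inr (k : J)) (Sum.inr l)) + c * νJ k,
    fun i k e c => (∑ u, (1 + r i (Sum.inl u)) * L i (Sum.inl u) (Sum.inr (k : J)) *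
        e.1 (some u) + e.1 none * ∑ l, L i (Sum.inr l) (Sum.inr (k : J))) +
        αJ k * e.2 none + c * αJ k,
    fun k g => αJ k * g, ?_, ?_, ?_, ?_, ?_⟩
  · intro i z
    exact Bp_alt k0 _ _ _ _ z
  · intro i z k
    show Bp k0 (r i) (ν i) (α i) (L i) z (fx k) = _
    rw [Bp_fx k0 (r i) (ν i) (α i) (L i) z k (h1 i k).1, (h1 i k).2.1]
    have e1 : ∑ l : Ix k0, L i (Sum.inr (k : J)) (Sum.inr (l : J)) * z.2.2 l =
        ∑ l : Ix k0, LJ k l * z.2.2 l + τ i k * z.2.2 k := by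
      have e2 : ∀ l : Ix k0, L i (Sum.inr (k : J)) (Sum.inr (l : J)) * z.2.2 l =
          LJ k l * z.2.2 l + if l = k then τ i k * z.2.2 k else 0 := by
        intro l
        split_ifs with h
        · rw [h, h3]
          ring
        · rw [h2 i k l (fun h' => h (Subtype.ext h'.symm)), add_zero]
      rw [sum_congr rfl fun l _ => e2 l, sum_add_distrib, sum_ite_eq' univ k, if_pos (mem_univ k)]
    rw [e1]
    ring
  · intro i z k
    show Bp k0 (r i) (ν i) (α i) (L i) z (fy k) = _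
    rw [Bp_fy k0 (r i) (ν i) (α i) (L i) z k (fun l => (h1 i l).1), (h1 i k).2.2]
    have e1 : ∑ l : Ix k0, L i (Sum.inr (l : J)) (Sum.inr (k : J)) * z.2.1 l =
        ∑ l : Ix k0, LJ l k * z.2.1 l + τ i k * z.2.1 k := by
      have e2 : ∀ l : Ix k0, L i (Sum.inr (l : J)) (Sum.inr (k : J)) * z.2.1 l =
          LJ l k * z.2.1 l + if l = k then τ i k * z.2.1 k else 0 := by
        intro l
        split_ifs with h
        · rw [h, h3]
          ring
        · rw [h2 i l k (fun h' => h (Subtype.ext h')), add_zero]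
      rw [sum_congr rfl fun l _ => e2 l, sum_add_distrib, sum_ite_eq' univ k, if_pos (mem_univ k)]
    rw [e1]
    ring
  · intro x k
    show ∑ l : Ix k0, LJ k l * x l + ∑ l : Ix k0, LJ l k * x l =
      αJ k * x k + αJ k * ∑ l : Ix k0, αJ l * x l
    rw [← sum_add_distrib]
    have e2 : ∀ l : Ix k0, LJ k l * x l + LJ l k * x l =
        αJ k * (αJ l * x l) + if l = k then αJ k * x k else 0 := by
      intro l
      split_ifs with h
      · rw [h]
        generalize LJ k k = a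
        generalize αJ k = b
        generalize x k = c
        revert a b c
        decide
      · rw [← add_mul, h4 k l (fun h' => h (Subtype.ext h'.symm)), add_zero]
        ring
    rw [sum_congr rfl fun l _ => e2 l, sum_add_distrib, sum_ite_eq' univ k, if_pos (mem_univ k),
      ← mul_sum]
    ring
  · intro i e
    exact h5 i e

end Pool.Agent.H385.JLSH
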